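import Pool.Agent.MWBN.Stmts

/-!
# Row BSW of squad MWBN: the base of the two letter principle for the class W
-/

set_option autoImplicit false

namespace Pool.Agent.MWBN.H13

open Pool.Agent.Helper14_MV Pool.Agent.Helper2_MV Pool.Agent.MVO Pool.Agent.MWL Pool.Agent.MWS
open Pool.Agent.MWBN

theorem flat_rep0 (k : ℕ) :
    (List.replicate k 0).flatMap (fun c => if c = 0 then [0] else [0, 2]) =
      List.replicate k 0 := by
  induction k with
  | zero => rfl
  | succ k ih =>
    rw [List.replicate_succ, List.flatMap_cons, ih]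
    rfl

theorem move (hSHN : ShnStmt) (n : ℕ) (β : FIC) (h : ClW n β) (p : List ℕ) (x : ℕ) :
    ∀ (w q0 : List ℕ), x ∈ q0 → (∀ c ∈ w, 2 ≤ (p ++ x :: (w ++ x :: q0)).count c) →
      RR β (p ++ x :: (w ++ x :: q0)) (p ++ x :: x :: (w ++ q0)) := by
  intro w
  induction w using List.reverseRecOn with
  | nil =>
    intro q0 _ _
    exact RR.refl _
  | append_singleton w0 b ih =>
    intro q0 hx hc
    have e1 : (w0 ++ [b]) ++ x :: q0 = w0 ++ b :: x :: q0 := by
      rw [List.append_assoc]
      rfl
    have e2 : (w0 ++ [b]) ++ q0 = w0 ++ b :: q0 := by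
      rw [List.append_assoc]
      rfl
    rw [e1] at hc ⊢
    rw [e2]
    have s1 : RR β (p ++ x :: (w0 ++ b :: x :: q0)) (p ++ x :: (w0 ++ x :: b :: q0)) := by
      apply hSHN n β h p w0 q0 x b hx
      intro c hc1
      apply hc c
      rcases hc1 with hc1 | hc1
      · exact List.mem_append_left _ hc1
      · rw [hc1]
        exact List.mem_append_right _ (List.mem_singleton.2 rfl)
    have s2 : RR β (p ++ x :: (w0 ++ x :: b :: q0)) (p ++ x :: x :: (w0 ++ b :: q0)) := by
      apply ih (b :: q0) (List.mem_cons_of_mem _ hx)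
      intro c hc1
      have h1 := hc c (List.mem_append_left _ hc1)
      have h2 : (p ++ x :: (w0 ++ b :: x :: q0)).count c =
          (p ++ x :: (w0 ++ x :: b :: q0)).count c := by
        simp only [List.count_append, List.count_cons]
        omega
      rw [← h2]
      exact h1
    exact β.trans s1 s2

theorem bsw (hIDN : IdnStmt) (hCPF : CpfStmt) (hSHN : ShnStmt) : BswStmt := by
  intro n β h
  have hrr : RR β [0, 0, 2, 0] ([0, 0, 2] ++ List.replicate (n + 1) 0) := by
    have h1 := h.be.sub (fun c => if c = 0 then [0] else [0, 2])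
    have e1 : (List.replicate (n + 1) 0 ++ 1 :: List.replicate (n + 1) 0).flatMap
        (fun c => if c = 0 then [0] else [0, 2]) =
          List.replicate (n + 2) 0 ++ 2 :: List.replicate (n + 1) 0 := by
      have e2 : List.replicate (n + 2) 0 = List.replicate (n + 1) 0 ++ [0] :=
        List.replicate_succ'
      rw [List.flatMap_append, List.flatMap_cons, flat_rep0, e2, if_neg (by omega),
        List.append_assoc]
      rfl
    rw [e1] at h1
    have h2 := h.ap.symm.append (RR.refl (β := β) (2 :: List.replicate (n + 1) 0))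
    exact β.trans h1 h2
  have f1' : RR β [1, 0, 1, 0] [1, 0, 0, 1] :=
    h.f1.sub (fun c => if c = 0 then [1] else [0])
  have hic : RR β [0, 1, 0, 1] [1, 0, 1, 0] := β.trans h.f0 f1'.symm
  have hitn : MWHP.ItN n β := by
    constructor
    · intro p w q x _
      have h1 := hIDN n β h.pos h.ap h.be p (w ++ x :: q) x
        (Or.inr (List.mem_append_right _ List.mem_cons_self)) 1
      rw [Nat.mul_one] at h1
      exact h1
    · intro p w w' q x hc
      exact move hSHN n β h p x w (w' ++ x :: q) (List.mem_append_right _ List.mem_cons_self)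
        (fun c hcw => hc c (Or.inl hcw))
  exact
    { pos := h.pos
      ap := h.ap
      rr := hrr
      ic := hic
      itn := hitn
      cap := hCPF β h.f0 h.f1
      be := h.be }

end Pool.Agent.MWBN.H13
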