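import Pool.Agent.MWBN.Stmts
import Pool.Agent.MWA.StmtsP
import Pool.Agent.Helper39_MWS.JPV

/-!
# Row JPN of squad MWBN: the edges are join prime, period `n`
-/

set_option autoImplicit false

namespace Pool.Agent.MWBN.H13

open Pool.Agent.Helper14_MV Pool.Agent.Helper2_MV Pool.Agent.MVO Pool.Agent.MWL Pool.Agent.MWS
open Pool.Agent.MWS.H39

/-- all the supports are kept if the bit `F` fails -/
theorem supp_eqn (hone : MVO.OneStmt) (hspn : SpnStmt) {n : ℕ} {θ : FIC}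
    (hlr : LR n (FC.ofFIC θ)) (hnd : ND (FC.ofFIC θ)) (hF : ¬ Has n (FC.ofFIC θ) Bit.F) {k : ℕ}
    {B B' : ℕ → List ℕ} (hB : OkB k B) (hB' : OkB k B') (hr : RR θ (asm k B) (asm k B')) {c : ℕ}
    (hc : c = 0 ∨ c = 1) (hm : ∃ j ≤ k, c ∈ B j) : ∀ j ≤ k, (c ∈ B j ↔ c ∈ B' j) := by
  have hL : L1 θ k (ty B c) (ty B' c) := hone.1 θ k B B' c (ns01 hc) hB.ok hB'.ok hr
  have hd : 2 ≤ deg k (ty B c) := by
    obtain ⟨j, hj, hcj⟩ := hm
    exact hB.ml j hj c hcj
  have hm' : ∃ j ≤ k, c ∈ B' j := by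
    by_contra hcon
    push Not at hcon
    obtain ⟨j, hj, hcj⟩ := hm
    have h0 : deg k (ty B' c) ≤ 1 := by
      have : deg k (ty B' c) = 0 := by
        unfold deg
        refine Finset.sum_eq_zero fun j hj => ?_
        have hj' : j ≤ k := by
          have := Finset.mem_range.1 hj
          omega
        exact ty_zero.2 (hcon j hj')
      omega
    have h1 := hnd k _ _ ((FC.ofFIC θ).symm hL) h0 j hj
    rw [ty_zero.2 (hcon j hj)] at h1
    exact (ty_zero.1 h1.symm) hcj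
  have hd' : 2 ≤ deg k (ty B' c) := by
    obtain ⟨j, hj, hcj⟩ := hm'
    exact hB'.ml j hj c hcj
  intro j hj
  constructor
  · intro h1
    by_contra h2
    exact hF (hspn n (FC.ofFIC θ) hlr hnd k (ty B' c) (ty B c) j hj hd'
      ((FC.ofFIC θ).symm hL) (ty_zero.2 h2) (fun h => (ty_zero.1 h) h1))
  · intro h1
    by_contra h2
    exact hF (hspn n (FC.ofFIC θ) hlr hnd k (ty B c) (ty B' c) j hj hd hL
      (ty_zero.2 h2) (fun h => (ty_zero.1 h) h1))

/-- correct the residues of both letters -/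
theorem fix_res (hone : MVO.OneStmt) (htcb : TcbStmt) {n : ℕ} {β θ : FIC} (hX : ClXn n β)
    (hθ : β ≤ θ) {k : ℕ} {B B' : ℕ → List ℕ} (hB : OkB k B) (hB' : OkB k B') (h2 : Two01 k B)
    (h2' : Two01 k B') (hr : RR θ (asm k B) (asm k B'))
    (hs : ∀ j ≤ k, ∀ c, c = 0 ∨ c = 1 → (c ∈ B j ↔ c ∈ B' j)) :
    ∃ C : ℕ → List ℕ, OkB k C ∧ Two01 k C ∧ SmN n k B C ∧ RR θ (asm k B') (asm k C) ∧
      ∀ j ≤ k, ∀ c d, c ≠ d → (Bef (B' j) c d ↔ Bef (C j) c d) := by
  have hL0 : L1 θ k (ty B' 0) (ty B 0) :=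
    hone.1 θ k B' B 0 (ns01 (Or.inl rfl)) hB'.ok hB.ok hr.symm
  obtain ⟨C1, hC1, hr1, hx1, hd1, hb1⟩ := htcb n β θ hX hθ k B' hB' 0 (ns01 (Or.inl rfl))
    (ty B 0) hL0 (fun j hj => by
      rw [ty_zero, ty_zero, not_iff_not]
      exact (hs j hj 0 (Or.inl rfl)).symm)
  have hL1 : L1 θ k (ty C1 1) (ty B 1) :=
    hone.1 θ k C1 B 1 (ns01 (Or.inr rfl)) hC1.ok hB.ok (θ.trans hr1.symm hr.symm)
  obtain ⟨C2, hC2, hr2, hx2, hd2, hb2⟩ := htcb n β θ hX hθ k C1 hC1 1 (ns01 (Or.inr rfl))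
    (ty B 1) hL1 (fun j hj => by
      have e1 : ty C1 1 j = ty B' 1 j := hd1 j hj 1 (by omega)
      rw [e1, ty_zero, ty_zero, not_iff_not]
      exact (hs j hj 1 (Or.inr rfl)).symm)
  have hT : Two01 k C2 := by
    intro j hj c hc
    by_cases hc1 : c = 1
    · exact Or.inr hc1
    · by_cases hc0 : c = 0
      · exact Or.inl hc0
      · have e1 := hd2 j hj c hc1
        have e2 := hd1 j hj c hc0
        have h3 := List.count_pos_iff.2 hc
        exact h2' j hj c (List.count_pos_iff.1 (by omega))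
  refine ⟨C2, hC2, hT, ?_, θ.trans hr1 hr2, fun j hj c d hcd =>
    (hb1 j hj c d hcd).trans (hb2 j hj c d hcd)⟩
  have hmz : ∀ (l l' : List ℕ) (c : ℕ), (l.count c = 0 ↔ l'.count c = 0) → (c ∈ l ↔ c ∈ l') := by
    intro l l' c h
    rw [List.count_eq_zero, List.count_eq_zero, not_iff_not] at h
    exact h
  intro j hj c
  by_cases hc0 : c = 0
  · subst hc0
    have e1 := hd2 j hj 0 (by omega)
    obtain ⟨h3, h4⟩ := hx1 j hj
    rw [← e1] at h3 h4
    exact ⟨hmz _ _ _ h3.symm, h4.symm⟩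
  · by_cases hc1 : c = 1
    · subst hc1
      obtain ⟨h3, h4⟩ := hx2 j hj
      exact ⟨hmz _ _ _ h3.symm, h4.symm⟩
    · have h3 : c ∉ B j := fun h => by
        rcases h2 j hj c h with h4 | h4
        · exact hc0 h4
        · exact hc1 h4
      have h5 : c ∉ C2 j := fun h => by
        rcases hT j hj c h with h4 | h4
        · exact hc0 h4
        · exact hc1 h4
      refine ⟨iff_of_false h3 h5, ?_⟩
      rw [List.count_eq_zero.2 h3, List.count_eq_zero.2 h5]

/-- case 1 -/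
theorem jpn1 (hone : MVO.OneStmt) (hndq : MWA.NdqStmt) (hlrn : MWHP.LrnnStmt)
    (hjpi : MWHP.JpinStmt) (htwn : TwnStmt) (hfen : FenStmt) (hspn : SpnStmt) (htcb : TcbStmt)
    {n : ℕ} {V : ℕ → (ℕ → ℕ) → (ℕ → ℕ) → ℕ → Prop} {β : FIC} (hV : VisOk V) (hC : ClVn n V β)
    {k : ℕ} {a b : ℕ → ℕ} (e : ℕ → Bool) {i : ℕ} (h : V k a b i)
    (hcase : (∃ j < i, b j ≠ 0) ∨ ∃ j, i < j ∧ j ≤ k ∧ a j ≠ 0) : JPp β (edg k a b e i) := by
  obtain ⟨hi, hai, hbi⟩ := hV.mem _ _ _ _ h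
  refine hjpi n β hC.toClXn.toBasN k (cb a b e i [0, 0, 1, 1]) (cb a b e i [0, 1, 0, 1])
    (fun B => (∀ j ≤ k, (0 ∈ B j ↔ a j ≠ 0) ∧ (1 ∈ B j ↔ b j ≠ 0)) ∧ Bef (B i) 0 1)
    (cb_ok ll_a hi) (cb_ok ll_b hi) (cb_two ll_a) ?_ ?_ ?_ ?_
  · refine ⟨fun j _ => ⟨cb_mem0 ll_a hai j, cb_mem1 ll_a hbi j⟩, ?_⟩
    rw [cb_self]
    exact bef_a
  · rintro ⟨-, h1⟩
    rw [cb_self] at h1
    exact bef_b h1
  · rintro B B' hBB ⟨h1, h2⟩
    refine ⟨fun j hj => ?_, ?_⟩
    · rw [← hBB j hj]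
      exact h1 j hj
    · rw [← hBB i hi]
      exact h2
  · rintro θ hθ hnc hne B B' hB hB' h2 h2' hr ⟨h3, h4⟩
    have hF : ¬ Has n (FC.ofFIC θ) Bit.F := fun hF =>
      hne (hfen n V β θ hV hC hθ hF k a b i h hcase e)
    have hlr : LR n (FC.ofFIC θ) := hlrn n β θ hC.toClXn.toBasN hθ
    have hnd : ND (FC.ofFIC θ) := hndq β θ hC.cap hθ hnc
    have s0 := supp_eqn hone hspn hlr hnd hF hB hB' hr (c := 0) (Or.inl rfl)
      ⟨i, hi, (h3 i hi).1.2 hai⟩
    have s1 := supp_eqn hone hspn hlr hnd hF hB hB' hr (c := 1) (Or.inr rfl)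
      ⟨i, hi, (h3 i hi).2.2 hbi⟩
    refine ⟨fun j hj => ⟨(s0 j hj).symm.trans (h3 j hj).1, (s1 j hj).symm.trans (h3 j hj).2⟩, ?_⟩
    by_contra hcon
    have hs : ∀ j ≤ k, ∀ c, c = 0 ∨ c = 1 → (c ∈ B j ↔ c ∈ B' j) := by
      intro j hj c hc
      rcases hc with hc | hc
      · subst hc
        exact s0 j hj
      · subst hc
        exact s1 j hj
    obtain ⟨C, hC1, hC2, hsm, hrC, hbC⟩ := fix_res hone htcb hC.toClXn hθ hB hB' h2 h2' hr hs
    have hsup : ∀ j ≤ k, (a j = 0 ↔ ty B 0 j = 0) ∧ (b j = 0 ↔ ty B 1 j = 0) := by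
      intro j hj
      rw [ty_zero, ty_zero, (h3 j hj).1, (h3 j hj).2]
      tauto
    have hVB : V k (ty B 0) (ty B 1) i := hV.ext k a b _ _ i hsup h
    have hTE := htwn n V β θ hV hC hθ k B C hB hC1 h2 hC2 hsm i hVB (θ.trans hr hrC) h4
      (fun h5 => hcon ((hbC i hi 0 1 (by omega)).2 h5)) e
    apply hne
    have e1 := cb_congr hsup e i [0, 0, 1, 1]
    have e2 := cb_congr hsup e i [0, 1, 0, 1]
    rw [e1, e2]
    exact hTE

theorem okb_ll {w : List ℕ} (hw : LL w) : OkB 0 (fun _ => w) := by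
  refine ⟨fun j _ c _ hc => by omega, fun j _ c hc => ?_⟩
  have e1 : deg 0 (fun _ => w.count c) = w.count c := by
    unfold deg
    simp
  rw [e1]
  rcases hw.mem c hc with rfl | rfl
  · exact hw.c0
  · exact hw.c1

/-- words in the letters `0`, `1` with both ends -/
theorem nf_zeron (hnfn : NfnStmt) {n : ℕ} {V : ℕ → (ℕ → ℕ) → (ℕ → ℕ) → ℕ → Prop} {β : FIC}
    (hV : VisOk V) (hC : ClVn n V β) {u v : List ℕ} (hu : LL u) (hv' : LL v)
    (hc0 : u.count 0 ≡ v.count 0 [MOD n]) (hc1 : u.count 1 ≡ v.count 1 [MOD n])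
    (h1 : Bef u 0 1 ↔ Bef v 0 1) (h2 : Bef u 1 0 ↔ Bef v 1 0) : RR β u v := by
  have h3 := hnfn n V β β hV hC (fic_le_refl β) 0 (fun _ => u) (fun _ => v) (okb_ll hu)
    (okb_ll hv')
    (by
      intro j _ c
      by_cases h0 : c = 0
      · subst h0
        exact ⟨iff_of_true hu.m0 hv'.m0, hc0⟩
      · by_cases h1 : c = 1
        · subst h1
          exact ⟨iff_of_true hu.m1 hv'.m1, hc1⟩
        · have h3 : c ∉ u := fun h => by
            rcases hu.mem c h with h4 | h4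
            · exact h0 h4
            · exact h1 h4
          have h5 : c ∉ v := fun h => by
            rcases hv'.mem c h with h4 | h4
            · exact h0 h4
            · exact h1 h4
          refine ⟨iff_of_false h3 h5, ?_⟩
          rw [List.count_eq_zero.2 h3, List.count_eq_zero.2 h5])
    (by
      intro x y i' hxy h4 h5
      obtain ⟨-, hx, hy⟩ := hV.mem _ _ _ _ h4
      have hx1 : x ∈ u := by
        by_contra hc
        exact hx (List.count_eq_zero.2 hc)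
      have hy1 : y ∈ u := by
        by_contra hc
        exact hy (List.count_eq_zero.2 hc)
      exfalso
      apply h5
      rcases hu.mem x hx1 with rfl | rfl
      · rcases hu.mem y hy1 with rfl | rfl
        · exact absurd rfl hxy
        · exact h1
      · rcases hu.mem y hy1 with rfl | rfl
        · exact h2
        · exact absurd rfl hxy)
  exact h3

/-- `0^u w 1^v` -/
def wr (u v : ℕ) (w : List ℕ) : List ℕ := List.replicate u 0 ++ gg w ++ List.replicate v 1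

theorem wr_c0 (u v : ℕ) (w : List ℕ) : (wr u v w).count 0 = u + (gg w).count 0 := by
  unfold wr
  rw [List.count_append, List.count_append, List.count_replicate_self, List.count_replicate]
  simp

theorem wr_c1 (u v : ℕ) (w : List ℕ) : (wr u v w).count 1 = v + (gg w).count 1 := by
  unfold wr
  rw [List.count_append, List.count_append, List.count_replicate_self, List.count_replicate]
  simp
  omega

theorem ll_wr {u v : ℕ} (hu : 2 ≤ u) (hv : 2 ≤ v) (w : List ℕ) : LL (wr u v w) := by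
  refine ⟨?_, ?_, ?_⟩
  · intro c hc
    unfold wr at hc
    simp only [List.mem_append, List.mem_replicate, mem_gg] at hc
    omega
  · rw [wr_c0]
    omega
  · rw [wr_c1]
    omega

theorem bef_wr {u v : ℕ} (hu : 2 ≤ u) (hv : 2 ≤ v) (w : List ℕ) :
    (Bef (wr u v w) 0 1 ↔ Bef (gg w) 0 1) ∧ ¬ Bef (wr u v w) 1 0 := by
  have m1 : 1 ∉ List.replicate u 0 := fun h => by
    have := List.eq_of_mem_replicate h
    omega
  have m0 : 0 ∉ List.replicate v 1 := fun h => by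
    have := List.eq_of_mem_replicate h
    omega
  unfold wr
  constructor
  · rw [bef_append, bef_append]
    constructor
    · exact fun h => h.1.2.1
    · intro h
      exact ⟨⟨bef_of_not_mem m1, h, Or.inl m1⟩, bef_of_not_mem' m0, Or.inr m0⟩
  · rw [bef_append]
    rintro ⟨-, -, h⟩
    rcases h with h | h
    · exact h (List.mem_append_left _ (List.mem_replicate.2 ⟨by omega, rfl⟩))
    · exact h (List.mem_replicate.2 ⟨by omega, rfl⟩)

theorem res_two {n : ℕ} (hn : 1 ≤ n) (p : ℕ) : (n - 1) * p + 2 + p ≡ 2 [MOD n] := by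
  obtain ⟨m, rfl⟩ : ∃ m, n = m + 1 := ⟨n - 1, by omega⟩
  have e : (m + 1 - 1) * p + 2 + p = 2 + (m + 1) * p := by
    rw [Nat.add_sub_cancel]
    ring
  rw [e]
  unfold Nat.ModEq
  rw [Nat.add_mul_mod_self_left]

/-- case 2 -/
theorem jpn2 (hone : MVO.OneStmt) (hjpi : MWHP.JpinStmt) (hnfn : NfnStmt) (htcb : TcbStmt)
    {n : ℕ} {V : ℕ → (ℕ → ℕ) → (ℕ → ℕ) → ℕ → Prop} {β : FIC} (hV : VisOk V) (hC : ClVn n V β)
    {k : ℕ} {a b : ℕ → ℕ} (e : ℕ → Bool) {i : ℕ} (h : V k a b i)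
    (hb : ∀ j < i, b j = 0) (ha : ∀ j, i < j → j ≤ k → a j = 0) : JPp β (edg k a b e i) := by
  obtain ⟨hi, hai, hbi⟩ := hV.mem _ _ _ _ h
  have hn : 1 ≤ n := hC.pos
  -- the form of the words
  have hsplit : ∃ P Q : List ℕ, 1 ∉ P ∧ 0 ∉ Q ∧
      (∀ l' : List ℕ, asm k (cb a b e i l') = P ++ l' ++ Q) := by
    refine ⟨pre (cb a b e i []) i, suf (cb a b e i []) i (k - i), ?_, ?_, ?_⟩
    · rw [mem_pre]
      rintro (h1 | ⟨j, hj, h1⟩)
      · omega
      · rw [cb_ne (by omega), mem_bl, hv_ne, hv_ne] at h1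
        rcases h1 with h1 | h1
        · omega
        · exact h1.2 (hb j hj)
    · rw [mem_suf]
      rintro (h1 | ⟨j, hj, hj2, h1⟩)
      · omega
      · rw [cb_ne (by omega), mem_bl, hv_ne, hv_ne] at h1
        rcases h1 with h1 | h1
        · exact h1.2 (ha j hj (by omega))
        · omega
    · intro l'
      have e1 : asm k (cb a b e i l') = asm k (Function.update (cb a b e i []) i l') := by
        refine asm_congr fun j _ => ?_
        by_cases hj : j = i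
        · subst hj
          rw [cb_self, Function.update_self]
        · rw [cb_ne hj, Function.update_of_ne hj, cb_ne hj]
      rw [e1, asm_update hi]
  obtain ⟨P, Q, hP, hQ, hPQ⟩ := hsplit
  have hP' : 1 ∉ gg P := fun h => hP (mem_gg.1 h).1
  have hQ' : 0 ∉ gg Q := fun h => hQ (mem_gg.1 h).1
  refine hjpi n β hC.toClXn.toBasN k (cb a b e i [0, 0, 1, 1]) (cb a b e i [0, 1, 0, 1])
    (fun B => 0 ∈ asm k B ∧ 1 ∈ asm k B ∧ Bef (gg (asm k B)) 0 1)
    (cb_ok ll_a hi) (cb_ok ll_b hi) (cb_two ll_a) ?_ ?_ ?_ ?_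
  · rw [hPQ]
    refine ⟨by simp, by simp, ?_⟩
    rw [gg_append, gg_append, gg_self ll_a, bef_append, bef_append]
    exact ⟨⟨bef_of_not_mem hP', bef_a, Or.inl hP'⟩, bef_of_not_mem' hQ', Or.inr hQ'⟩
  · rw [hPQ]
    rintro ⟨-, -, h1⟩
    rw [gg_append, gg_append, gg_self ll_b, bef_append, bef_append] at h1
    exact bef_b h1.1.2.1
  · intro B B' hBB h1
    rw [← asm_congr hBB]
    exact h1
  · rintro θ hθ hnc hne B B' hB hB' h2 h2' hr ⟨h3, h4, h5⟩
    have hmem : ∀ c, c ∈ asm k B → c ∈ asm k B' := by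
      intro c hc
      have h6 := hC.cap θ hθ hnc _ _ hr c
      have h7 := List.count_pos_iff.2 hc
      apply List.count_pos_iff.1
      omega
    refine ⟨hmem 0 h3, hmem 1 h4, ?_⟩
    by_contra hcon
    have h6 : RR θ (gg (asm k B)) (gg (asm k B')) := hr.filter _
    obtain ⟨u, hu⟩ : ∃ u, u = (n - 1) * (gg (asm k B)).count 0 + 2 := ⟨_, rfl⟩
    obtain ⟨v, hv'⟩ : ∃ v, v = (n - 1) * (gg (asm k B)).count 1 + 2 := ⟨_, rfl⟩
    have hu2 : 2 ≤ u := by omega
    have hv2 : 2 ≤ v := by omega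
    have h7 : RR θ (wr u v (asm k B)) (wr u v (asm k B')) :=
      ((RR.refl (List.replicate u 0)).append h6).append (RR.refl (List.replicate v 1))
    have h8 : RR β [0, 0, 1, 1] (wr u v (asm k B)) := by
      refine nf_zeron hnfn hV hC ll_a (ll_wr hu2 hv2 _) ?_ ?_ ?_ ?_
      · rw [wr_c0, hu]
        exact (res_two hn _).symm
      · rw [wr_c1, hv']
        exact (res_two hn _).symm
      · rw [(bef_wr hu2 hv2 _).1]
        exact ⟨fun _ => h5, fun _ => bef_a⟩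
      · exact ⟨fun h => absurd h bef_a', fun h => absurd h (bef_wr hu2 hv2 _).2⟩
    have h9 : RR θ [0, 0, 1, 1] (wr u v (asm k B')) := θ.trans (hθ _ _ h8) h7
    have two_ll : ∀ {w : List ℕ}, LL w → Two01 0 (fun _ => w) := fun hw _ _ c hc => hw.mem c hc
    obtain ⟨C, hC1, hC2, hsm, hrC, hbC⟩ := fix_res hone htcb hC.toClXn hθ (okb_ll ll_a)
      (okb_ll (ll_wr hu2 hv2 (asm k B'))) (two_ll ll_a) (two_ll (ll_wr hu2 hv2 (asm k B'))) h9
      (fun j _ c hc => by
        rcases hc with hc | hc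
        · subst hc
          exact iff_of_true ll_a.m0 (ll_wr hu2 hv2 _).m0
        · subst hc
          exact iff_of_true ll_a.m1 (ll_wr hu2 hv2 _).m1)
    have hdeg : ∀ c, deg 0 (fun j => (C j).count c) = (C 0).count c := by
      intro c
      unfold deg
      simp
    have m0 : 0 ∈ C 0 := ((hsm 0 le_rfl 0).1).1 ll_a.m0
    have m1 : 1 ∈ C 0 := ((hsm 0 le_rfl 1).1).1 ll_a.m1
    have hLL : LL (C 0) := by
      refine ⟨hC2 0 le_rfl, ?_, ?_⟩
      · have h10 := hC1.ml 0 le_rfl 0 m0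
        rw [hdeg 0] at h10
        exact h10
      · have h10 := hC1.ml 0 le_rfl 1 m1
        rw [hdeg 1] at h10
        exact h10
    have h11 : RR β (C 0) [0, 1, 0, 1] := by
      refine nf_zeron hnfn hV hC hLL ll_b ?_ ?_ ?_ ?_
      · have h12 := (hsm 0 le_rfl 0).2
        exact h12.symm
      · have h12 := (hsm 0 le_rfl 1).2
        exact h12.symm
      · rw [← hbC 0 le_rfl 0 1 (by omega)]
        rw [(bef_wr hu2 hv2 _).1]
        exact ⟨fun h => absurd h hcon, fun h => absurd h bef_b⟩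
      · rw [← hbC 0 le_rfl 1 0 (by omega)]
        exact ⟨fun h => absurd h (bef_wr hu2 hv2 _).2, fun h => absurd h bef_b'⟩
    have h13 : RR θ (wr u v (asm k B')) (C 0) := hrC
    have h10 : RR θ [0, 0, 1, 1] [0, 1, 0, 1] := θ.trans h9 (θ.trans h13 (hθ _ _ h11))
    apply hne
    rw [hPQ, hPQ]
    exact ((RR.refl P).append h10).append (RR.refl Q)

/-- row JPN -/
theorem jpn (hone : MVO.OneStmt) (hndq : MWA.NdqStmt) (hlrn : MWHP.LrnnStmt)
    (hjpi : MWHP.JpinStmt) (hnfn : NfnStmt) (_hten : TenStmt) (htwn : TwnStmt) (hfen : FenStmt)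
    (hspn : SpnStmt) (htcb : TcbStmt) : JpnStmt := by
  intro n V β hV hC k a b e i h
  by_cases hcase : (∃ j < i, b j ≠ 0) ∨ ∃ j, i < j ∧ j ≤ k ∧ a j ≠ 0
  · exact jpn1 hone hndq hlrn hjpi htwn hfen hspn htcb hV hC e h hcase
  · push Not at hcase
    exact jpn2 hone hjpi hnfn htcb hV hC e h hcase.1 hcase.2

end Pool.Agent.MWBN.H13
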